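import Pool.Agent.V1198.RD5

/-!
# A Banach space with the reciprocal Dunford-Pettis property without its quantitative form
-/

set_option autoImplicit false

noncomputable section

open Filter Topology
open scoped ENNReal

namespace Pool.Agent.Results.MP_2f19c2_an.NoQuant

open Pool.Agent.V1198.RD

section defs

variable {X Y : Type} [NormedAddCommGroup X] [NormedSpace ℝ X]
  [NormedAddCommGroup Y] [NormedSpace ℝ Y]

/-- Weakly Cauchy sequences. -/
def WeaklyCauchy (x : ℕ → X) : Prop := ∀ φ : StrongDual ℝ X, CauchySeq fun n => φ (x n)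

/-- Completely continuous operators: weakly Cauchy sequences are sent to norm Cauchy sequences. -/
def CompletelyContinuous (T : X →L[ℝ] Y) : Prop :=
  ∀ x : ℕ → X, WeaklyCauchy x → CauchySeq fun n => T (x n)

/-- Weakly compact operators: the weak closure of the image of the closed unit ball is weakly
compact. -/
def WeaklyCompact (T : X →L[ℝ] Y) : Prop :=
  IsCompact (closure (toWeakSpace ℝ Y '' (T '' Metric.closedBall 0 1)))

/-- The weak* closure in the bidual `Y**` of a subset of `Y`. -/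
def wstarClosure (A : Set Y) : Set (StrongDual ℝ (StrongDual ℝ Y)) :=
  {z | StrongDual.toWeakDual z ∈
    closure ((fun y => StrongDual.toWeakDual (NormedSpace.inclusionInDoubleDual ℝ Y y)) '' A)}

/-- `wk_Y(A)`: the supremum of the distances to `Y` of the points of the weak* closure of `A` in
`Y**`. -/
def wk (A : Set Y) : ℝ≥0∞ :=
  ⨆ z ∈ wstarClosure A, Metric.infEDist z (Set.range (NormedSpace.inclusionInDoubleDual ℝ Y))

/-- `wk_Y(T)`. -/
def wkOp (T : X →L[ℝ] Y) : ℝ≥0∞ := wk (T '' Metric.closedBall 0 1)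

/-- `ca(y_k)`. -/
def ca (y : ℕ → Y) : ℝ≥0∞ := ⨅ n : ℕ, ⨆ (k : ℕ) (_ : n ≤ k) (l : ℕ) (_ : n ≤ l), edist (y k) (y l)

/-- `cc(T)`. -/
def cc (T : X →L[ℝ] Y) : ℝ≥0∞ :=
  ⨆ (x : ℕ → X) (_ : ∀ n, x n ∈ Metric.closedBall (0 : X) 1) (_ : WeaklyCauchy x),
    ca fun n => T (x n)

end defs

/-- The reciprocal Dunford-Pettis property. -/
def RDPP (X : Type) [NormedAddCommGroup X] [NormedSpace ℝ X] : Prop :=
  ∀ (Y : Type) [NormedAddCommGroup Y] [NormedSpace ℝ Y] [CompleteSpace Y] (T : X →L[ℝ] Y),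
    CompletelyContinuous T → WeaklyCompact T

/-- Completely continuous operators send weakly null sequences to norm null sequences. -/
theorem CCn_of {X Y : Type} [NormedAddCommGroup X] [NormedSpace ℝ X] [NormedAddCommGroup Y]
    [NormedSpace ℝ Y] {T : X →L[ℝ] Y} (hT : CompletelyContinuous T) : CCn T := by
  intro x hx
  -- interlace with zero
  set u : ℕ → X := fun n => if Even n then x (n / 2) else 0 with hu
  have hu0 : ∀ φ : StrongDual ℝ X, Tendsto (fun n => φ (u n)) atTop (𝓝 0) := by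
    intro φ
    have h1 : Tendsto (fun n => |φ (x (n / 2))|) atTop (𝓝 0) := by
      have h2 := (hx φ).abs
      rw [abs_zero] at h2
      exact h2.comp (Nat.tendsto_div_const_atTop (by norm_num))
    rw [tendsto_zero_iff_abs_tendsto_zero]
    refine squeeze_zero (fun n => abs_nonneg _) (fun n => ?_) h1
    change |φ (if Even n then x (n / 2) else 0)| ≤ _
    split_ifs
    · exact le_rfl
    · rw [map_zero, abs_zero]; exact abs_nonneg _
  have h1 := hT u fun φ => (hu0 φ).cauchySeq
  rw [Metric.tendsto_atTop]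
  intro ε hε
  obtain ⟨N, hN⟩ := Metric.cauchySeq_iff.1 h1 ε hε
  refine ⟨N, fun n hn => ?_⟩
  have h2 := hN (2 * n) (by omega) (2 * n + 1) (by omega)
  have e1 : u (2 * n) = x n := by
    change (if Even (2 * n) then x (2 * n / 2) else 0) = x n
    rw [if_pos (even_two_mul n)]
    congr 1
    omega
  have e2 : u (2 * n + 1) = 0 := by
    change (if Even (2 * n + 1) then x ((2 * n + 1) / 2) else 0) = 0
    rw [if_neg (by rw [Nat.not_even_iff_odd]; exact odd_two_mul_add_one n)]
  rw [e1, e2, map_zero] at h2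
  exact h2

theorem rdpp : RDPP XX := fun _ _ _ _ _ hT => compact_of_WL (WL_XX (CCn_of hT))

theorem cc_le (k : ℕ) : cc (QK k) ≤ ENNReal.ofReal (20 / ((k : ℝ) + 1)) := by
  refine iSup_le fun x => iSup_le fun hx => iSup_le fun hw => ?_
  obtain ⟨m, hm⟩ := QK_est k (fun n => mem_closedBall_zero_iff.1 (hx n)) hw
  refine iInf_le_of_le m ?_
  refine iSup_le fun i => iSup_le fun hi => iSup_le fun j => iSup_le fun hj => ?_
  rw [edist_dist, dist_eq_norm]
  exact ENNReal.ofReal_le_ofReal (hm i hi j hj)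

theorem one_le_wk (k : ℕ) : 1 ≤ wkOp (QK k) := by
  -- a weak* cluster point of the Rademacher functions
  set F : ℕ → WeakDual ℝ (StrongDual ℝ (XK 0)) := fun n =>
    StrongDual.toWeakDual (NormedSpace.inclusionInDoubleDual ℝ (XK 0) (rad0 n)) with hF
  have hball : ∀ n, F n ∈ WeakDual.toStrongDual ⁻¹'
      Metric.closedBall (0 : StrongDual ℝ (StrongDual ℝ (XK 0))) 1 := by
    intro n
    change NormedSpace.inclusionInDoubleDual ℝ (XK 0) (rad0 n) ∈
      Metric.closedBall (0 : StrongDual ℝ (StrongDual ℝ (XK 0))) 1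
    have h1 := ofC_norm 0 (rad n)
    rw [Nat.cast_zero, zero_add, one_mul] at h1
    have h2 : ‖NormedSpace.inclusionInDoubleDual ℝ (XK 0) (rad0 n)‖ ≤ 1 :=
      (NormedSpace.double_dual_bound ℝ (XK 0) (rad0 n)).trans
        (h1.trans ((norm_le_NN 0 (rad n)).trans (NN_rad 0 n)))
    have h3 := dist_zero_right (NormedSpace.inclusionInDoubleDual ℝ (XK 0) (rad0 n))
    exact h3.trans_le h2
  obtain ⟨z, -, hz⟩ := (WeakDual.isCompact_closedBall
    (0 : StrongDual ℝ (StrongDual ℝ (XK 0))) 1).ultrafilter_le_nhds ((hyperfilter ℕ).map F) (by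
      rw [le_principal_iff]
      exact Filter.mem_map.2 (Filter.univ_mem' hball))
  have hz' : Tendsto F (hyperfilter ℕ) (𝓝 z) := hz
  have hzc : WeakDual.toStrongDual z ∈ wstarClosure (QK k '' Metric.closedBall 0 1) := by
    change z ∈ closure _
    refine mem_closure_of_tendsto hz' (Filter.univ_mem' fun n => ?_)
    exact ⟨rad0 n, ⟨JK k (rad n), mem_closedBall_zero_iff.2 (JK_rad k n), QK_JK k n⟩, rfl⟩
  refine le_trans ?_ (le_iSup₂ (f := fun z (_ : z ∈ wstarClosure (QK k '' Metric.closedBall 0 1)) =>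
    Metric.infEDist z (Set.range (NormedSpace.inclusionInDoubleDual ℝ (XK 0)))) _ hzc)
  rw [Metric.le_infEDist]
  rintro _ ⟨f, rfl⟩
  have h1 := cluster_dist (z := WeakDual.toStrongDual z) (fun φ =>
    ((WeakDual.eval_continuous φ).tendsto z).comp hz') f
  rw [edist_dist, dist_eq_norm]
  exact (ENNReal.one_le_ofReal).2 h1

/-- There is a (real) Banach space `X` with the reciprocal Dunford-Pettis property such that for
every constant `C` there are a Banach space `Y` and an operator `T : X → Y` with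
`C * cc(T) < wk_Y(T)`. -/
theorem result : ∃ (X : Type) (_ : NormedAddCommGroup X) (_ : NormedSpace ℝ X),
    CompleteSpace X ∧ RDPP X ∧
    ∀ C : NNReal, ∃ (Y : Type) (_ : NormedAddCommGroup Y) (_ : NormedSpace ℝ Y)
      (_ : CompleteSpace Y) (T : X →L[ℝ] Y), (C : ℝ≥0∞) * cc T < wkOp T := by
  refine ⟨XX, inferInstance, inferInstance, inferInstance, rdpp, fun C => ?_⟩
  obtain ⟨k, hk⟩ := exists_nat_gt ((C : ℝ) * 20)
  refine ⟨XK 0, inferInstance, inferInstance, inferInstance, QK k, ?_⟩
  refine lt_of_lt_of_le ?_ (one_le_wk k)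
  have hk0 : (0 : ℝ) < (k : ℝ) + 1 := by positivity
  calc (C : ℝ≥0∞) * cc (QK k) ≤ (C : ℝ≥0∞) * ENNReal.ofReal (20 / ((k : ℝ) + 1)) := by
        gcongr
        exact cc_le k
    _ = ENNReal.ofReal ((C : ℝ) * (20 / ((k : ℝ) + 1))) := by
        rw [ENNReal.ofReal_mul (NNReal.coe_nonneg C), ENNReal.ofReal_coe_nnreal]
    _ < 1 := by
        rw [ENNReal.ofReal_lt_one, mul_div_assoc', div_lt_one hk0]
        linarith

end Pool.Agent.Results.MP_2f19c2_an.NoQuant
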